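import Pool.Agent.Helper6.MONO.Stmts

set_option autoImplicit false

namespace Pool.Agent.Helper6.MONO

theorem y0_alg (A K D : ℝ) (hD : 0 ≤ D) (h : D ^ 2 = 1 - 4 * K * A) :
    2 * A / (1 + D) = A + K * (2 * A / (1 + D) * (2 * A / (1 + D))) := by
  have h1 : (1 + D) ≠ 0 := by positivity
  field_simp
  linear_combination (-A) * h

theorem st_Y0 : ST_Y0 := by
  intro s k hd he a0 _ _ _ _ _ _ h
  constructor
  · have h1 : Real.sqrt (1 - 4 * Kst s k hd he * (a0 * a0 + SbP hd)) ^ 2 =
        1 - 4 * Kst s k hd he * (a0 * a0 + SbP hd) := Real.sq_sqrt (by linarith)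
    have h2 := y0_alg (a0 * a0 + SbP hd) (Kst s k hd he) _ (Real.sqrt_nonneg _) h1
    unfold NR z0
    simp only [mul_zero, add_zero, sub_zero]
    unfold y0
    rw [Kst] at h2
    rw [Kst]
    linarith
  · have hK : HasDerivAt (fun t => Kst t k hd he) (SbP k * (gP k hd he * gP k hd he)) s := by
      unfold Kst
      have h1 : HasDerivAt (fun t : ℝ => 1 + t) 1 s := by
        simpa using (hasDerivAt_id s).const_add 1
      have h2 := h1.const_mul (SbP k * (gP k hd he * gP k hd he))
      rw [mul_one] at h2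
      exact h2
    have hpos : (1 - 4 * Kst s k hd he * (a0 * a0 + SbP hd)) ≠ 0 := by
      have : 0 < 1 - 4 * Kst s k hd he * (a0 * a0 + SbP hd) := by linarith
      exact this.ne'
    have h3 : HasDerivAt (fun t => 1 - 4 * Kst t k hd he * (a0 * a0 + SbP hd))
        (-(4 * (SbP k * (gP k hd he * gP k hd he)) * (a0 * a0 + SbP hd))) s := by
      have h4 := ((hK.const_mul 4).mul_const (a0 * a0 + SbP hd)).const_sub 1
      exact h4
    have h5 := (h3.sqrt hpos).const_add 1
    have h6 : (1 + Real.sqrt (1 - 4 * Kst s k hd he * (a0 * a0 + SbP hd))) ≠ 0 := by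
      positivity
    have h7 := (hasDerivAt_const s (2 * (a0 * a0 + SbP hd))).div h5 h6
    exact ⟨_, h7⟩

end Pool.Agent.Helper6.MONO
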